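import Mathlib
import Pool.Agent.W367.SN.Irr

/-!
Twisted Frobenius–Schur sums are bounded by one in absolute value, for every automorphism of a
finite group (no condition on its order).
-/

set_option autoImplicit false
open Matrix CategoryTheory
open scoped ComplexOrder MatrixOrder Kronecker

namespace Pool.Agent.TH444.FS
open Pool.Agent.W367.SN

variable {G : Type} [Group G] [Fintype G]

/-- Every matrix representation of a finite group is conjugate to a unitary one. -/
theorem exists_unitary {n : ℕ} (ρ : G →* Matrix (Fin n) (Fin n) ℂ) :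
    ∃ σ : G →* Matrix (Fin n) (Fin n) ℂ, (∀ g, (σ g).trace = (ρ g).trace) ∧
      ∀ g, (σ g)ᴴ = σ g⁻¹ := by
  classical
  let P : Matrix (Fin n) (Fin n) ℂ := ∑ g, (ρ g)ᴴ * ρ g
  have hP : P.PosDef := by
    have h1 : P = 1 + ∑ g ∈ Finset.univ.erase (1 : G), (ρ g)ᴴ * ρ g := by
      change ∑ g, (ρ g)ᴴ * ρ g = _
      rw [← Finset.add_sum_erase _ _ (Finset.mem_univ (1 : G))]
      simp
    rw [h1]
    apply Matrix.PosDef.add_posSemidef Matrix.PosDef.one
    apply Matrix.posSemidef_sum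
    intro g _
    exact Matrix.posSemidef_conjTranspose_mul_self _
  have hinv : ∀ g, (ρ g)ᴴ * P * ρ g = P := by
    intro g
    change (ρ g)ᴴ * (∑ h, (ρ h)ᴴ * ρ h) * ρ g = _
    rw [Finset.mul_sum, Finset.sum_mul]
    refine Eq.trans ?_ (Equiv.sum_comp (Equiv.mulRight g) (fun h => (ρ h)ᴴ * ρ h))
    apply Finset.sum_congr rfl
    intro h _
    simp only [Equiv.coe_mulRight, map_mul, conjTranspose_mul, Matrix.mul_assoc]
  obtain ⟨R, hR⟩ := CStarAlgebra.nonneg_iff_eq_star_mul_self.mp hP.posSemidef.nonneg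
  rw [star_eq_conjTranspose] at hR
  have hdet : IsUnit R.det := by
    have h1 : P.det ≠ 0 := hP.det_pos.ne'
    rw [hR, det_mul] at h1
    exact isUnit_iff_ne_zero.2 (right_ne_zero_of_mul h1)
  have h1 : R * R⁻¹ = 1 := Matrix.mul_nonsing_inv R hdet
  have h2 : R⁻¹ * R = 1 := Matrix.nonsing_inv_mul R hdet
  have h3 : (R⁻¹)ᴴ * Rᴴ = 1 := by rw [← conjTranspose_mul, h1, conjTranspose_one]
  let σ : G →* Matrix (Fin n) (Fin n) ℂ :=
    { toFun := fun g => R * ρ g * R⁻¹
      map_one' := by rw [map_one, Matrix.mul_one, h1]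
      map_mul' := fun g h => by
        rw [map_mul]
        calc R * (ρ g * ρ h) * R⁻¹ = R * ρ g * 1 * ρ h * R⁻¹ := by
              simp only [Matrix.mul_assoc, Matrix.one_mul]
          _ = R * ρ g * R⁻¹ * (R * ρ h * R⁻¹) := by
              rw [← h2]; simp only [Matrix.mul_assoc] }
  refine ⟨σ, fun g => ?_, fun g => ?_⟩
  · change (R * ρ g * R⁻¹).trace = _
    rw [Matrix.trace_mul_cycle, h2, Matrix.one_mul]
  · have h4 : (σ g)ᴴ * σ g = 1 := by
      change (R * ρ g * R⁻¹)ᴴ * (R * ρ g * R⁻¹) = 1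
      rw [conjTranspose_mul, conjTranspose_mul]
      calc (R⁻¹)ᴴ * ((ρ g)ᴴ * Rᴴ) * (R * ρ g * R⁻¹)
          = (R⁻¹)ᴴ * ((ρ g)ᴴ * (Rᴴ * R) * ρ g) * R⁻¹ := by simp only [Matrix.mul_assoc]
        _ = (R⁻¹)ᴴ * (Rᴴ * R) * R⁻¹ := by rw [← hR, hinv]
        _ = ((R⁻¹)ᴴ * Rᴴ) * (R * R⁻¹) := by simp only [Matrix.mul_assoc]
        _ = 1 := by rw [h1, h3, Matrix.one_mul]
    have h5 : σ g * σ g⁻¹ = 1 := by rw [← map_mul, mul_inv_cancel, map_one]
    calc (σ g)ᴴ = (σ g)ᴴ * (σ g * σ g⁻¹) := by rw [h5, Matrix.mul_one]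
      _ = σ g⁻¹ := by rw [← Matrix.mul_assoc, h4, Matrix.one_mul]

/-- The key bound: `|∑ χ(g α(g))| ≤ |G|`. -/
theorem eps_bound {n : ℕ} (σ : G →* Matrix (Fin n) (Fin n) ℂ) (hσ : ∀ g, (σ g)ᴴ = σ g⁻¹)
    (hn : ∑ g, (σ g).trace * (σ g⁻¹).trace = Fintype.card G) (α : G ≃* G) :
    ‖∑ g, (σ (g * α g)).trace‖ ≤ Fintype.card G := by
  classical
  obtain ⟨c, hc⟩ : ∃ c : ℂ, c = (Fintype.card G : ℂ) := ⟨_, rfl⟩
  have hc0 : c ≠ 0 := by rw [hc]; exact_mod_cast Fintype.card_ne_zero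
  let E : Matrix (Fin n × Fin n) (Fin n × Fin n) ℂ := ∑ g, σ g ⊗ₖ σ (α g)
  have hEE : E * E = c • E := by
    change (∑ g, σ g ⊗ₖ σ (α g)) * (∑ h, σ h ⊗ₖ σ (α h)) = _
    rw [Finset.sum_mul]
    have h1 : ∀ g, (σ g ⊗ₖ σ (α g)) * (∑ h, σ h ⊗ₖ σ (α h)) = E := by
      intro g
      rw [Finset.mul_sum]
      change _ = ∑ h, σ h ⊗ₖ σ (α h)
      rw [← Equiv.sum_comp (Equiv.mulLeft g) (fun h => σ h ⊗ₖ σ (α h))]
      apply Finset.sum_congr rfl
      intro h _
      rw [← Matrix.mul_kronecker_mul]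
      simp
    rw [Finset.sum_congr rfl (fun g _ => h1 g), Finset.sum_const, Finset.card_univ, hc,
      ← Nat.cast_smul_eq_nsmul ℂ]
  have hEh : Eᴴ = E := by
    change (∑ g, σ g ⊗ₖ σ (α g))ᴴ = _
    rw [conjTranspose_sum]
    change _ = ∑ h, σ h ⊗ₖ σ (α h)
    rw [← Equiv.sum_comp (Equiv.inv G) (fun h => σ h ⊗ₖ σ (α h))]
    apply Finset.sum_congr rfl
    intro h _
    rw [conjTranspose_kronecker, hσ, hσ]
    simp
  let F : Matrix (Fin n × Fin n) (Fin n × Fin n) ℂ := E.submatrix id Prod.swap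
  have hEF : E * F = c • F := by
    have h1 : E * F = (E * E).submatrix id Prod.swap := by
      ext a b
      simp [F, Matrix.mul_apply, Matrix.submatrix_apply]
    rw [h1, hEE]
    rfl
  have htF : F.trace = ∑ g, (σ (g * α g)).trace := by
    simp only [Matrix.trace, Matrix.diag_apply, F, Matrix.submatrix_apply, id, E, Matrix.sum_apply]
    rw [Finset.sum_comm]
    apply Finset.sum_congr rfl
    intro g _
    rw [map_mul, Fintype.sum_prod_type]
    simp only [Matrix.kroneckerMap_apply, Prod.swap, Matrix.mul_apply]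
  have htE : E.trace = ∑ g, (σ g).trace * (σ (α g)).trace := by
    change (∑ g, σ g ⊗ₖ σ (α g)).trace = _
    rw [Matrix.trace_sum]
    exact Finset.sum_congr rfl (fun g _ => Matrix.trace_kronecker _ _)
  -- norms
  set N : ℝ := ∑ a, ∑ b, ‖E a b‖ ^ 2 with hN
  have hNE : (N : ℂ) = c * E.trace := by
    have h1 : (Eᴴ * E).trace = (N : ℂ) := by
      simp only [Matrix.trace, Matrix.diag_apply, Matrix.mul_apply, conjTranspose_apply, hN]
      rw [Finset.sum_comm]
      push_cast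
      apply Finset.sum_congr rfl
      intro a _
      apply Finset.sum_congr rfl
      intro b _
      rw [← Complex.conj_mul']
      rfl
    rw [← h1, hEh, hEE, Matrix.trace_smul, smul_eq_mul]
  have hNF : ∑ a, ∑ b, ‖F b a‖ ^ 2 = N := by
    rw [Finset.sum_comm, hN]
    apply Finset.sum_congr rfl
    intro a _
    exact Equiv.sum_comp (Equiv.prodComm (Fin n) (Fin n)) (fun b => ‖E a b‖ ^ 2)
  have hCF : ‖c * F.trace‖ ≤ N := by
    have h1 : c * F.trace = ∑ a, ∑ b, E a b * F b a := by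
      rw [← smul_eq_mul, ← Matrix.trace_smul, ← hEF]
      simp only [Matrix.trace, Matrix.diag_apply, Matrix.mul_apply]
    rw [h1]
    calc ‖∑ a, ∑ b, E a b * F b a‖ ≤ ∑ a, ∑ b, ‖E a b * F b a‖ :=
          (norm_sum_le _ _).trans (Finset.sum_le_sum fun a _ => norm_sum_le _ _)
      _ ≤ ∑ a, ∑ b, (‖E a b‖ ^ 2 + ‖F b a‖ ^ 2) / 2 := by
          apply Finset.sum_le_sum; intro a _
          apply Finset.sum_le_sum; intro b _
          rw [norm_mul]
          nlinarith [sq_nonneg (‖E a b‖ - ‖F b a‖)]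
      _ = (N + N) / 2 := by
          simp only [add_div, Finset.sum_add_distrib, ← Finset.sum_div]
          rw [hNF]
      _ = N := by ring
  have hcn : ‖c‖ = Fintype.card G := by rw [hc, Complex.norm_natCast]
  have hcpos : (0 : ℝ) < Fintype.card G := by exact_mod_cast Fintype.card_pos
  have hF1 : ‖F.trace‖ ≤ ‖E.trace‖ := by
    have h1 : N ≤ ‖c * E.trace‖ := by
      rw [← hNE, Complex.norm_real]; exact le_abs_self N
    have h2 := hCF.trans h1
    rw [norm_mul, norm_mul, hcn] at h2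
    exact le_of_mul_le_mul_left h2 hcpos
  have hchi : ∀ g, ‖(σ g).trace‖ ^ 2 = ((σ g).trace * (σ g⁻¹).trace).re := by
    intro g
    rw [← hσ, Matrix.trace_conjTranspose]
    have h1 : (σ g).trace * star (σ g).trace = ((‖(σ g).trace‖ ^ 2 : ℝ) : ℂ) := by
      push_cast
      exact Complex.mul_conj' _
    rw [h1, Complex.ofReal_re]
  have hsum : ∑ g, ‖(σ g).trace‖ ^ 2 = Fintype.card G := by
    rw [Finset.sum_congr rfl (fun g _ => hchi g), ← Complex.re_sum, hn]
    simp
  have hE1 : ‖E.trace‖ ≤ Fintype.card G := by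
    rw [htE]
    calc ‖∑ g, (σ g).trace * (σ (α g)).trace‖ ≤ ∑ g, ‖(σ g).trace * (σ (α g)).trace‖ :=
          norm_sum_le _ _
      _ ≤ ∑ g, (‖(σ g).trace‖ ^ 2 + ‖(σ (α g)).trace‖ ^ 2) / 2 := by
          apply Finset.sum_le_sum; intro g _
          rw [norm_mul]
          nlinarith [sq_nonneg (‖(σ g).trace‖ - ‖(σ (α g)).trace‖)]
      _ = (Fintype.card G + Fintype.card G) / 2 := by
          simp only [add_div, Finset.sum_add_distrib, ← Finset.sum_div]
          have h9 : ∑ g, ‖(σ (α g)).trace‖ ^ 2 = ∑ g, ‖(σ g).trace‖ ^ 2 :=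
            Equiv.sum_comp α.toEquiv (fun g => ‖(σ g).trace‖ ^ 2)
          rw [h9, hsum]
      _ = Fintype.card G := by ring
  rw [← htF]
  exact hF1.trans hE1

theorem chi_bound {χ : G → ℂ} (h : χ ∈ IrrC G) (α : G ≃* G) :
    ‖∑ g, χ (g * α g)‖ ≤ Fintype.card G := by
  obtain ⟨n, _, ρ, hρ, -⟩ := exists_matrix h
  obtain ⟨σ, hσ, hu⟩ := exists_unitary ρ
  have h1 : ∀ g, χ g = (σ g).trace := fun g => by rw [hρ, hσ]
  have h2 : ∑ g, (σ g).trace * (σ g⁻¹).trace = Fintype.card G := by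
    rw [← irr_norm h]
    exact Finset.sum_congr rfl (fun g _ => by rw [h1, h1])
  have h3 := eps_bound σ hu h2 α
  rwa [Finset.sum_congr rfl (fun g _ => (h1 (g * α g)).symm)] at h3

open Classical in
/-- The regular character. -/
theorem regular (s : Finset (G → ℂ)) (hs : ∀ χ, χ ∈ s ↔ χ ∈ IrrC G) (x : G) :
    ∑ χ ∈ s, χ 1 * χ x = if x = 1 then (Fintype.card G : ℂ) else 0 := by
  let f : G → ℂ := fun x => (if x = 1 then (Fintype.card G : ℂ) else 0) - ∑ χ ∈ s, χ 1 * χ x
  have hf : f = 0 := by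
    apply irr_complete f
    · intro g u
      have h1 : (u * g * u⁻¹ = 1) ↔ g = 1 := by
        constructor
        · intro h
          have : g = u⁻¹ * (u * g * u⁻¹) * u := by group
          rw [this, h]; group
        · rintro rfl; group
      simp only [f, h1]
      congr 1
      apply Finset.sum_congr rfl
      intro χ hχ
      rw [irr_class ((hs χ).1 hχ)]
    · intro ψ hψ
      simp only [f, sub_mul, Finset.sum_sub_distrib, Finset.sum_mul]
      rw [Finset.sum_comm]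
      have h1 : ∀ χ ∈ s, ∑ g, χ 1 * χ g * ψ g⁻¹ = if χ = ψ then ψ 1 * Fintype.card G else 0 := by
        intro χ hχ
        simp only [mul_assoc, ← Finset.mul_sum]
        split_ifs with he
        · subst he; rw [irr_norm hψ]
        · rw [irr_orth ((hs χ).1 hχ) hψ he, mul_zero]
      rw [Finset.sum_congr rfl h1, Finset.sum_ite_eq', if_pos ((hs ψ).2 hψ)]
      simp [mul_comm]
  have h2 := congrFun hf x
  simp only [f, Pi.zero_apply, sub_eq_zero] at h2
  exact h2.symm

theorem main (α : G ≃* G) (s : Finset (G → ℂ)) (hs : ∀ χ, χ ∈ s ↔ χ ∈ IrrC G) :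
    (Nat.card {g : G // α g = g⁻¹} : ℝ) ≤ ∑ χ ∈ s, ‖χ 1‖ := by
  classical
  have h1 : (∑ g : G, if g * α g = 1 then (Fintype.card G : ℂ) else 0) =
      ∑ χ ∈ s, χ 1 * ∑ g, χ (g * α g) := by
    simp only [← regular s hs, Finset.mul_sum]
    rw [Finset.sum_comm]
  have h2 : (∑ g : G, if g * α g = 1 then (Fintype.card G : ℂ) else 0) =
      (Nat.card {g : G // α g = g⁻¹} : ℂ) * Fintype.card G := by
    rw [← Finset.sum_filter, Finset.sum_const, nsmul_eq_mul, Nat.card_eq_fintype_card,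
      Fintype.card_subtype]
    congr 3
    ext g
    simp only [Finset.mem_filter, Finset.mem_univ, true_and]
    constructor
    · intro h; exact eq_inv_of_mul_eq_one_right h
    · intro h; rw [h, mul_inv_cancel]
  rw [h2] at h1
  have hcpos : (0 : ℝ) < Fintype.card G := by exact_mod_cast Fintype.card_pos
  have h3 : (Nat.card {g : G // α g = g⁻¹} : ℝ) * Fintype.card G ≤
      (∑ χ ∈ s, ‖χ 1‖) * Fintype.card G := by
    have h4 := congrArg norm h1
    rw [norm_mul, Complex.norm_natCast, Complex.norm_natCast] at h4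
    rw [h4, Finset.sum_mul]
    refine (norm_sum_le _ _).trans (Finset.sum_le_sum fun χ hχ => ?_)
    rw [norm_mul]
    exact mul_le_mul_of_nonneg_left (chi_bound ((hs χ).1 hχ) α) (norm_nonneg _)
  exact le_of_mul_le_mul_right h3 hcpos

/-- The number of solutions of `g α(g) = z` is at most the sum of the degrees. -/
theorem main_z (α : G ≃* G) (z : G) (s : Finset (G → ℂ)) (hs : ∀ χ, χ ∈ s ↔ χ ∈ IrrC G) :
    (Nat.card {g : G // g * α g = z} : ℝ) ≤ ∑ χ ∈ s, ‖χ 1‖ := by
  classical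
  by_cases h : ∃ g₀ : G, g₀ * α g₀ = z
  · obtain ⟨g₀, h₀⟩ := h
    let β : G ≃* G := α.trans (MulAut.conj g₀)
    have hβ : ∀ h, β h = g₀ * α h * g₀⁻¹ := fun h => rfl
    let e : {g : G // β g = g⁻¹} ≃ {g : G // g * α g = z} :=
      { toFun := fun h => ⟨h.1 * g₀, by
          have h1 := h.2
          rw [hβ] at h1
          rw [map_mul, ← h₀]
          calc h.1 * g₀ * (α h.1 * α g₀) = h.1 * (g₀ * α h.1 * g₀⁻¹) * (g₀ * α g₀) := by group
            _ = g₀ * α g₀ := by rw [h1]; group⟩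
        invFun := fun g => ⟨g.1 * g₀⁻¹, by
          have h1 : g.1 * α g.1 = g₀ * α g₀ := g.2.trans h₀.symm
          rw [hβ, map_mul, map_inv]
          have h2 : α g.1 = g.1⁻¹ * (g₀ * α g₀) := by rw [← h1]; group
          rw [h2]; group⟩
        left_inv := fun h => by ext; simp
        right_inv := fun g => by ext; simp }
    rw [← Nat.card_congr e]
    exact main β s hs
  · have : IsEmpty {g : G // g * α g = z} := ⟨fun g => h ⟨g.1, g.2⟩⟩
    rw [Nat.card_of_isEmpty]
    simp only [Nat.cast_zero]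
    exact Finset.sum_nonneg fun χ _ => norm_nonneg _

end Pool.Agent.TH444.FS
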